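import Pool.Agent.H14.T1.S3
import Pool.Agent.H93.HYP.LattB

/-!
# T1, BAS: existence of a basis of integral elements
-/

set_option autoImplicit false

namespace Pool.T1

open Polynomial Matrix Pool.HYP Pool.TOW Pool.AVS IsDedekindDomain

open Classical in
theorem bas : BASStmt := by
  intro F _ K _ _ _ _
  let := algX F K
  have hst : IsScalarTower F[X] (RatFunc F) K := IsScalarTower.of_algebraMap_eq fun x => rfl
  obtain ⟨s, b, hb⟩ := FiniteDimensional.exists_is_basis_integral F[X] (RatFunc F) K
  let e : s ≃ Fin s.card := s.equivFin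
  let ω : Module.Basis (Fin s.card) (RatFunc F) K := b.reindex e
  have hω : ∀ i, ω i ∈ RS F K := by
    intro i
    have h1 : ω i = b (e.symm i) := b.reindex_apply e i
    rw [h1]
    exact hb _
  refine ⟨s.card, ω, hω, ?_⟩
  have hdet : (trd ω).det ≠ 0 := by
    have h2 := Algebra.discr_not_zero_of_basis (RatFunc F) ω
    rw [Algebra.discr_def] at h2
    exact h2
  set x := (trd ω).det with hx
  have hxn : x.num ≠ 0 := RatFunc.num_ne_zero hdet
  have hxd : x.denom ≠ 0 := RatFunc.denom_ne_zero x
  have hq : x.num * x.denom ≠ 0 := mul_ne_zero hxn hxd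
  refine Set.Finite.subset (UniqueFactorizationMonoid.normalizedFactors
    (x.num * x.denom)).toFinset.finite_toSet ?_
  rintro p ⟨hm, hp, hG⟩
  rw [Finset.mem_coe, Multiset.mem_toFinset,
    UniqueFactorizationMonoid.mem_normalizedFactors_iff' hq]
  refine ⟨hp, hm.normalize_eq_self, ?_⟩
  by_contra hnd
  apply hG
  refine ⟨hω, hdet, ?_, ?_⟩
  · intro h
    exact hnd (h.mul_left _)
  · change x⁻¹ ∈ IP p
    have h3 : ¬ p ∣ x.num := fun h => hnd (h.mul_right _)
    rw [ip_iff p hp]
    refine ⟨x.num, x.denom, h3, ?_⟩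
    have h4 := RatFunc.num_div_denom x
    have h5 : rf x.denom ≠ 0 := rf_ne hxd
    rw [div_eq_iff h5] at h4
    change algebraMap F[X] (RatFunc F) x.num * x⁻¹ = algebraMap F[X] (RatFunc F) x.denom
    rw [h4, mul_comm x, mul_assoc, mul_inv_cancel₀ hdet, mul_one]

end Pool.T1
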