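import Pool.Agent.H29.T1.S7

/-!
# T1, CLSK: representatives of the ideal classes
-/

set_option autoImplicit false

namespace Pool.T1

open Polynomial Matrix Pool.HYP Pool.TOW Pool.AVS IsDedekindDomain

theorem clsk : CLSKStmt := by
  intro R _ _ K _ _ _ O π hG
  haveI := hG.cl
  classical
  have hJ : ∀ c : ClassGroup R, ∃ J : nonZeroDivisors (Ideal R), ClassGroup.mk0 J = c :=
    fun c => ClassGroup.mk0_surjective c
  choose J hJ using hJ
  have hfin : (⋃ c : ClassGroup R,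
      {v : HeightOneSpectrum R | v.asIdeal ∣ (J c : Ideal R)}).Finite := by
    refine Set.finite_iUnion fun c => ?_
    exact Ideal.finite_factors (nonZeroDivisors.coe_ne_zero (J c))
  refine ⟨hfin.toFinset, fun P hP => ?_⟩
  have hB : ∀ v : HeightOneSpectrum R, v ∈ hfin.toFinset ↔
      ∃ c : ClassGroup R, v.asIdeal ∣ (J c : Ideal R) := by
    intro v
    rw [Set.Finite.mem_toFinset, Set.mem_iUnion]
    rfl
  have hP0 : P.asIdeal ≠ 0 := P.ne_bot
  let Pn : nonZeroDivisors (Ideal R) := ⟨P.asIdeal, mem_nonZeroDivisors_iff_ne_zero.2 hP0⟩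
  let c : ClassGroup R := (ClassGroup.mk0 Pn)⁻¹
  have h1 : ClassGroup.mk0 (Pn * J c) = 1 := by
    rw [map_mul, hJ c]
    exact mul_inv_cancel _
  have h2 : (P.asIdeal * (J c : Ideal R)).IsPrincipal :=
    (ClassGroup.mk0_eq_one_iff (Pn * J c).2).1 h1
  obtain ⟨d, hd⟩ := h2
  have hd' : P.asIdeal * (J c : Ideal R) = Ideal.span {d} := hd
  have hdm : ∀ I : Ideal R, d ∈ I ↔ I ∣ P.asIdeal * (J c : Ideal R) := by
    intro I
    rw [hd', Ideal.dvd_span_singleton]
  refine ⟨d, (hdm _).2 (dvd_mul_right _ _), fun h => ?_, fun P' hne h => ?_⟩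
  · have h3 := (hdm _).1 h
    rw [pow_two] at h3
    have h4 : P.asIdeal ∣ (J c : Ideal R) := (mul_dvd_mul_iff_left hP0).1 h3
    exact hP ((hB P).2 ⟨c, h4⟩)
  · have h3 := (hdm _).1 h
    rcases P'.prime.dvd_or_dvd h3 with h4 | h4
    · exfalso
      apply hne
      have h5 : P.asIdeal ≤ P'.asIdeal := Ideal.le_of_dvd h4
      haveI : P.asIdeal.IsMaximal := P.isMaximal
      have h6 : P.asIdeal = P'.asIdeal :=
        (P.isMaximal.eq_of_le P'.isPrime.ne_top h5)
      exact (HeightOneSpectrum.ext h6).symm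
    · exact (hB P').2 ⟨c, h4⟩

end Pool.T1
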