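import Pool.Agent.H29.T1.S7

/-!
# T1, DSK: the twisting elements
-/

set_option autoImplicit false

namespace Pool.T1

open Polynomial Matrix Pool.HYP Pool.TOW Pool.AVS IsDedekindDomain

private theorem dsk_lm {R : Type} [CommRing R] [IsDomain R] {K : Type} [Field K] [Algebra R K]
    {O : ValuationSubring K} {π : K} (hG : GR R O π) (a : R) :
    ∃ m : ℕ, ∀ E : ℕ, m ≤ E → a ∈ Lm R O π (E : ℤ) := by
  by_cases hx : algebraMap R K a = 0
  · refine ⟨0, fun E _ => ?_⟩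
    change algebraMap R K a * π ^ (E : ℤ) ∈ O
    rw [hx, zero_mul]
    exact O.zero_mem
  · obtain ⟨n, hn, -⟩ := hG.val _ hx
    refine ⟨(-n).toNat, fun E hE => ?_⟩
    change algebraMap R K a * π ^ (E : ℤ) ∈ O
    have h1 : 0 ≤ n + (E : ℤ) := by omega
    obtain ⟨k, hk⟩ := Int.eq_ofNat_of_zero_le h1
    have h2 : algebraMap R K a * π ^ (E : ℤ) = algebraMap R K a / π ^ n * π ^ k := by
      have h3 : π ^ (E : ℤ) = (π ^ n)⁻¹ * π ^ k := by
        rw [← zpow_natCast π k, ← hk, zpow_add₀ hG.pi_ne, ← mul_assoc,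
          inv_mul_cancel₀ (zpow_ne_zero n hG.pi_ne), one_mul]
      rw [h3]
      ring
    rw [h2]
    exact O.mul_mem _ _ hn (pow_mem hG.pi_mem k)

theorem dsk : DSKStmt := by
  intro R _ _ K _ _ _ O π hG B T' T hBT hdisj hd
  classical
  have hTB : ∀ P ∈ T, P ∉ B := fun P hP hPB =>
    (Finset.disjoint_left.1 hdisj hP) (hBT hPB)
  have hd' : ∀ P : HeightOneSpectrum R, ∃ d : R, P ∉ B → (d ∈ P.asIdeal ∧ d ∉ P.asIdeal ^ 2 ∧
      ∀ P' : HeightOneSpectrum R, P' ≠ P → d ∈ P'.asIdeal → P' ∈ B) := by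
    intro P
    by_cases h : P ∈ B
    · exact ⟨0, fun h' => absurd h h'⟩
    · obtain ⟨d, h1⟩ := hd P h
      exact ⟨d, fun _ => h1⟩
  choose δ hδ using hd'
  have hlm : ∀ S : Finset (HeightOneSpectrum R), ∃ m : ℕ, ∀ E : ℕ, m ≤ E →
      (∏ P ∈ S, δ P) ∈ Lm R O π (E : ℤ) := fun S => dsk_lm hG _
  choose e he using hlm
  refine ⟨T.powerset.sup e, fun S hS => ⟨∏ P ∈ S, δ P, he S _ ?_, ?_, ?_, ?_, ?_⟩⟩
  · exact Finset.le_sup (f := e) (Finset.mem_powerset.2 hS)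
  · refine Finset.prod_ne_zero_iff.2 fun P hP h0 => ?_
    have h1 := (hδ P (hTB P (hS hP))).2.1
    rw [h0] at h1
    exact h1 (Ideal.zero_mem _)
  · intro P hP
    have hrest : (∏ P'' ∈ S.erase P, δ P'') ∉ P.asIdeal := by
      haveI := P.isPrime
      intro h
      obtain ⟨P'', hP'', h2⟩ := (Ideal.IsPrime.prod_mem_iff).1 h
      rw [Finset.mem_erase] at hP''
      have h3 := (hδ P'' (hTB P'' (hS hP''.2))).2.2 P (Ne.symm hP''.1) h2
      exact hTB P (hS hP) h3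
    rw [← Finset.mul_prod_erase S δ hP]
    have hPd := hδ P (hTB P (hS hP))
    refine ⟨Ideal.mul_mem_right _ _ hPd.1, fun h => ?_⟩
    haveI := P.isPrime
    rw [mul_comm] at h
    rcases Ideal.IsPrime.mul_mem_pow P.asIdeal h with h4 | h4
    · exact hrest h4
    · exact hPd.2.1 h4
  · intro P hP hPS h
    haveI := P.isPrime
    obtain ⟨P'', hP'', h2⟩ := (Ideal.IsPrime.prod_mem_iff).1 h
    have hne : P ≠ P'' := fun h5 => hPS (h5 ▸ hP'')
    exact hTB P hP ((hδ P'' (hTB P'' (hS hP''))).2.2 P hne h2)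
  · intro P hP hP' h
    haveI := P.isPrime
    obtain ⟨P'', hP'', h2⟩ := (Ideal.IsPrime.prod_mem_iff).1 h
    have hne : P ≠ P'' := fun h5 => hP (h5 ▸ hS hP'')
    exact hP' (hBT ((hδ P'' (hTB P'' (hS hP''))).2.2 P hne h2))

end Pool.T1
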