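import Pool.Agent.H14.T1.S3
import Pool.Agent.H93.HYP.LattB

/-!
# T1, SEMC: a basis at the primes not dividing the discriminant
-/

set_option autoImplicit false

namespace Pool.T1

open Polynomial Matrix Pool.HYP Pool.TOW Pool.AVS IsDedekindDomain

namespace Semc

section Rp

variable {R : Type} [CommRing R] {K : Type} [Field K] [Algebra R K]

theorem rp_mul {P : HeightOneSpectrum R} {x y : K} (hx : x ∈ RP K P) (hy : y ∈ RP K P) :
    x * y ∈ RP K P := by
  obtain ⟨m, hm, a, h⟩ := hx
  obtain ⟨m', hm', a', h'⟩ := hy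
  refine ⟨m * m', fun h1 => ?_, a * a', ?_⟩
  · rcases P.isPrime.mem_or_mem h1 with h2 | h2
    · exact hm h2
    · exact hm' h2
  · rw [map_mul, map_mul, ← h, ← h']
    ring

theorem rp_add {P : HeightOneSpectrum R} {x y : K} (hx : x ∈ RP K P) (hy : y ∈ RP K P) :
    x + y ∈ RP K P := by
  obtain ⟨m, hm, a, h⟩ := hx
  obtain ⟨m', hm', a', h'⟩ := hy
  refine ⟨m * m', fun h1 => ?_, m' * a + m * a', ?_⟩
  · rcases P.isPrime.mem_or_mem h1 with h2 | h2
    · exact hm h2
    · exact hm' h2
  · rw [map_add, map_mul, map_mul, map_mul, ← h, ← h']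
    ring

theorem rp_int {P : HeightOneSpectrum R} (a : R) : algebraMap R K a ∈ RP K P :=
  ⟨1, fun h => P.isPrime.ne_top ((Ideal.eq_top_iff_one _).2 h), a, by rw [map_one, one_mul]⟩

theorem rp_sum {P : HeightOneSpectrum R} {ι : Type} (s : Finset ι) (x : ι → K)
    (h : ∀ i ∈ s, x i ∈ RP K P) : ∑ i ∈ s, x i ∈ RP K P := by
  classical
  induction s using Finset.induction_on with
  | empty =>
    rw [Finset.sum_empty]
    have := rp_int (K := K) (P := P) (0 : R)
    rwa [map_zero] at this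
  | insert a s ha ih =>
    rw [Finset.sum_insert ha]
    exact rp_add (h a (Finset.mem_insert_self a s))
      (ih fun i hi => h i (Finset.mem_insert_of_mem hi))

end Rp

/-- `IP p` as a subring. -/
noncomputable def ipS {F : Type} [Field F] {p : F[X]} (hp : Irreducible p) :
    Subring (RatFunc F) where
  carrier := IP p
  mul_mem' := fun h h' => ip_mul hp h h'
  one_mem' := by
    have := ip_rf hp (1 : F[X])
    rwa [rf_one] at this
  add_mem' := fun h h' => ip_add hp h h'
  zero_mem' := by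
    have := ip_rf hp (0 : F[X])
    rwa [rf_zero] at this
  neg_mem' := by
    intro x hx
    have h1 := ip_mul hp (ip_rf hp (-1 : F[X])) hx
    have h2 : rf (-1 : F[X]) * x = -x := by
      have h3 : rf (-1 : F[X]) = -1 := by
        change algebraMap F[X] (RatFunc F) (-1) = -1
        rw [map_neg, map_one]
      rw [h3, neg_mul, one_mul]
    rwa [h2] at h1

theorem mem_ipS {F : Type} [Field F] {p : F[X]} (hp : Irreducible p) (x : RatFunc F) :
    x ∈ ipS hp ↔ x ∈ IP p := Iff.rfl

/-- If the matrix `D` has entries in a subring `S` which contains the inverse of its determinant,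
and `D c` has entries in `S`, then `c` has entries in `S`. -/
theorem solve {L : Type} [Field L] (S : Subring L) {n : ℕ} (D : Matrix (Fin n) (Fin n) L)
    (hD : ∀ i j, D i j ∈ S) (h0 : D.det ≠ 0) (h1 : D.det⁻¹ ∈ S) (c : Fin n → L)
    (hc : ∀ i, (D *ᵥ c) i ∈ S) (i : Fin n) : c i ∈ S := by
  let D' : Matrix (Fin n) (Fin n) S := fun i j => ⟨D i j, hD i j⟩
  have hDD : D'.map S.subtype = D := by
    ext1 i j
    rfl
  have hadj : ∀ i j, D.adjugate i j ∈ S := by
    intro i j
    have h2 : D.adjugate = (D'.adjugate).map S.subtype := by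
      rw [← hDD]
      exact (RingHom.map_adjugate S.subtype D').symm
    rw [h2, Matrix.map_apply]
    exact (D'.adjugate i j).2
  have h3 : c i = D.det⁻¹ * ∑ j, D.adjugate i j * (D *ᵥ c) j := by
    have h4 : (D.adjugate *ᵥ (D *ᵥ c)) i = D.det * c i := by
      rw [Matrix.mulVec_mulVec, Matrix.adjugate_mul, Matrix.smul_mulVec, Matrix.one_mulVec]
      rfl
    have h5 : (D.adjugate *ᵥ (D *ᵥ c)) i = ∑ j, D.adjugate i j * (D *ᵥ c) j := rfl
    rw [← h5, h4, ← mul_assoc, inv_mul_cancel₀ h0, one_mul]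
  rw [h3]
  exact S.mul_mem h1 (Subring.sum_mem _ fun j _ => S.mul_mem (hadj i j) (hc j))

variable {F : Type} [Field F] {K : Type} [Field K] [Algebra (RatFunc F) K]

theorem rp_of_ip {p : F[X]} (hp : Irreducible p) {P : HeightOneSpectrum (RR F K)}
    (hP : Abv p P) {x : RatFunc F} (hx : x ∈ IP p) : algebraMap (RatFunc F) K x ∈ RP K P := by
  obtain ⟨m, a, hm, h⟩ := (ip_iff p hp x).1 hx
  refine ⟨xR F K m, fun h1 => ?_, xR F K a, ?_⟩
  · have h2 : IsCoprime p m := (hp.coprime_iff_not_dvd).2 hm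
    obtain ⟨u, v, huv⟩ := h2
    have h3 : (1 : RR F K) ∈ P.asIdeal := by
      have h4 : xR F K (u * p + v * m) = 1 := by rw [huv, map_one]
      rw [← h4, map_add, map_mul, map_mul]
      exact P.asIdeal.add_mem (P.asIdeal.mul_mem_left _ hP) (P.asIdeal.mul_mem_left _ h1)
    exact P.isPrime.ne_top ((Ideal.eq_top_iff_one _).2 h3)
  · change algebraMap (RatFunc F) K (rf m) * algebraMap (RatFunc F) K x =
      algebraMap (RatFunc F) K (rf a)
    rw [← map_mul, h]

theorem is_rs {p : F[X]} {a : K} (ha : a ∈ RS F K) : a ∈ IS (F := F) K p := by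
  intro P _
  exact rp_int (R := RR F K) (⟨a, ha⟩ : RR F K)

theorem is_mul {p : F[X]} {a b : K} (ha : a ∈ IS (F := F) K p) (hb : b ∈ IS (F := F) K p) :
    a * b ∈ IS (F := F) K p := fun P hP => rp_mul (ha P hP) (hb P hP)

end Semc

open Semc in
theorem semc (hB : SEMBStmt) : SEMCStmt := by
  intro F _ K _ _ _ _ n ω p hm hp hG a
  have hω : ∀ i, ω i ∈ IS (F := F) K p := fun i => is_rs (hG.1 i)
  have h1 : a ∈ IS (F := F) K p → ∀ i, Algebra.trace (RatFunc F) K (a * ω i) ∈ IP p :=
    fun ha i => (hB F K p hm hp _ (is_mul ha (hω i))).2.1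
  have hD : ∀ i j, trd ω i j ∈ ipS hp :=
    fun i j => (hB F K p hm hp _ (is_mul (hω i) (hω j))).2.1
  have h2 : (∀ i, Algebra.trace (RatFunc F) K (a * ω i) ∈ IP p) → ∀ i, ω.repr a i ∈ IP p := by
    intro h i
    refine solve (ipS hp) (trd ω) hD hG.2.1 hG.2.2.2 (fun i => ω.repr a i) (fun j => ?_) i
    have h3 : (trd ω *ᵥ fun i => ω.repr a i) j = Algebra.trace (RatFunc F) K (a * ω j) := by
      have h4 : a * ω j = ∑ i, ω.repr a i • (ω j * ω i) := by
        conv_lhs => rw [← ω.sum_repr a, Finset.sum_mul]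
        refine Finset.sum_congr rfl fun i _ => ?_
        rw [smul_mul_assoc, mul_comm]
      rw [h4, map_sum]
      change ∑ i, trd ω j i * ω.repr a i = _
      refine Finset.sum_congr rfl fun i _ => ?_
      rw [map_smul, smul_eq_mul, mul_comm]
      rfl
    rw [h3]
    exact h j
  have h3 : (∀ i, ω.repr a i ∈ IP p) → a ∈ IS (F := F) K p := by
    intro h P hP
    rw [← ω.sum_repr a]
    refine rp_sum _ _ fun i _ => ?_
    rw [Algebra.smul_def]
    exact rp_mul (rp_of_ip hp hP (h i)) (hω i P hP)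
  exact ⟨⟨fun ha => h2 (h1 ha), h3⟩, ⟨h1, fun h => h3 (h2 h)⟩⟩

end Pool.T1
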